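import Mathlib

/-!
# An upper bound for the minimum number of horocycles determined by `n` points
-/

namespace Pool.Agent.Results.MP_d7f0d3_co.GoldenChain

open Finset UpperHalfPlane

/-- The horocycle of the upper half-plane centred at the real point `x`, of euclidean radius `r`:
the euclidean circle of radius `r` tangent to the real line at `x`. -/
def circ (x r : ℝ) : Set ℍ := {z | (z.re - x) ^ 2 + (z.im - r) ^ 2 = r ^ 2}

/-- The horocycle centred at infinity at height `c`. -/
def hline (c : ℝ) : Set ℍ := {z | z.im = c}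

/-- The horocycles of the hyperbolic plane, in the upper half-plane model. -/
def IsHorocycle (H : Set ℍ) : Prop :=
  (∃ c : ℝ, 0 < c ∧ H = hline c) ∨ (∃ x r : ℝ, 0 < r ∧ H = circ x r)

/-- The horocycles containing at least two points of `P`. -/
def determined (P : Finset ℍ) : Set (Set ℍ) :=
  {H | IsHorocycle H ∧ ∃ p ∈ P, ∃ q ∈ P, p ≠ q ∧ p ∈ H ∧ q ∈ H}

/-- The number of horocycles determined by `P`. -/
noncomputable def h (P : Finset ℍ) : ℕ := (determined P).ncard

/-- The minimum of `h P` over the sets `P` of `n` points. -/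
noncomputable def m (n : ℕ) : ℕ := sInf {k | ∃ P : Finset ℍ, #P = n ∧ h P = k}

/-- The Lucas numbers of odd index with alternating signs, times `2 / 5`:
`2/5, -8/5, 22/5, -58/5, ...`. -/
noncomputable def X : ℕ → ℝ
  | 0 => 2 / 5
  | 1 => -8 / 5
  | (k + 2) => -3 * X (k + 1) - X k

theorem X_succ_succ (k : ℕ) : X (k + 2) = -3 * X (k + 1) - X k := rfl

theorem X_inv (k : ℕ) : X (k + 1) ^ 2 + 3 * X (k + 1) * X k + X k ^ 2 = 4 / 5 := by
  induction k with
  | zero => norm_num [X]
  | succ k ih => rw [X_succ_succ]; linear_combination ih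

theorem X_abs (k : ℕ) : 0 < |X k| ∧ |X k| < |X (k + 1)| := by
  induction k with
  | zero =>
    norm_num [X, abs_of_pos, abs_of_neg]
  | succ k ih =>
    refine ⟨ih.1.trans ih.2, ?_⟩
    have h1 : |X (k + 1)| * 3 ≤ |X (k + 2)| + |X k| := by
      have : X (k + 1) * 3 = - (X (k + 2) + X k) := by rw [X_succ_succ]; ring
      calc |X (k + 1)| * 3 = |X (k + 1) * 3| := by rw [abs_mul]; norm_num
        _ = |X (k + 2) + X k| := by rw [this, abs_neg]
        _ ≤ _ := abs_add_le _ _
    linarith [ih.1, ih.2, ih.1.trans ih.2]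

theorem X_strictMono : StrictMono fun k => |X k| := strictMono_nat_of_lt_succ fun k => (X_abs k).2

theorem X_injective : Function.Injective X := by
  intro a b hab
  exact X_strictMono.injective (by simp only [hab])

/-- The point `(x, 1)`. -/
noncomputable def pt (x : ℝ) : ℍ := ⟨⟨x, 1⟩, by simp⟩

@[simp] theorem pt_re (x : ℝ) : (pt x).re = x := rfl
@[simp] theorem pt_im (x : ℝ) : (pt x).im = 1 := rfl

/-- The point `(0, 1/5)`. -/
noncomputable def q₁ : ℍ := ⟨⟨0, 1 / 5⟩, by norm_num⟩
/-- The point `(0, 9/5)`. -/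
noncomputable def q₂ : ℍ := ⟨⟨0, 9 / 5⟩, by norm_num⟩

@[simp] theorem q₁_re : q₁.re = 0 := rfl
@[simp] theorem q₁_im : q₁.im = 1 / 5 := rfl
@[simp] theorem q₂_re : q₂.re = 0 := rfl
@[simp] theorem q₂_im : q₂.im = 9 / 5 := rfl

/-- The horocycle through `(a, 1)` and `(b, 1)` other than the line (tangent to it if `a = b`). -/
noncomputable def hor (a b : ℝ) : Set ℍ := circ ((a + b) / 2) ((1 + ((a - b) / 2) ^ 2) / 2)

theorem hor_comm (a b : ℝ) : hor a b = hor b a := by
  unfold hor
  rw [add_comm a b, ← neg_sub b a, neg_div, neg_sq]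

open Classical in
/-- The configuration. -/
noncomputable def P (k : ℕ) : Finset ℍ := insert q₁ (insert q₂ ((range k).image fun i => pt (X i)))

theorem card_P (k : ℕ) : #(P k) = k + 2 := by
  classical
  have h0 : Function.Injective fun i => pt (X i) := by
    intro a b hab
    apply X_injective
    have := congrArg UpperHalfPlane.re hab
    simpa using this
  have h1 : q₂ ∉ (range k).image fun i => pt (X i) := by
    simp only [mem_image, not_exists, not_and]
    intro i _ hi
    have := congrArg UpperHalfPlane.im hi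
    norm_num at this
  have h2 : q₁ ∉ insert q₂ ((range k).image fun i => pt (X i)) := by
    simp only [mem_insert, mem_image, not_or, not_exists, not_and]
    refine ⟨?_, ?_⟩
    · intro hi
      have := congrArg UpperHalfPlane.im hi
      norm_num at this
    · intro i _ hi
      have := congrArg UpperHalfPlane.im hi
      norm_num at this
  rw [P, card_insert_of_notMem h2, card_insert_of_notMem h1, card_image_of_injective _ h0,
    card_range]

theorem mem_circ {z : ℍ} {x r : ℝ} :
    z ∈ circ x r ↔ (z.re - x) ^ 2 + z.im ^ 2 = 2 * r * z.im := by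
  unfold circ
  rw [Set.mem_ofPred_eq]
  constructor <;> intro h <;> linarith [h]

theorem circ_pt_pt {a b x r : ℝ} (hab : a ≠ b) (ha : pt a ∈ circ x r) (hb : pt b ∈ circ x r) :
    circ x r = hor a b := by
  rw [mem_circ] at ha hb
  simp only [pt_re, pt_im] at ha hb
  have h1 : (a - b) * (a + b - 2 * x) = 0 := by linear_combination ha - hb
  have h2 : a + b - 2 * x = 0 := (mul_eq_zero.1 h1).resolve_left (sub_ne_zero.2 hab)
  have hx : x = (a + b) / 2 := by linarith
  have hr : r = (1 + ((a - b) / 2) ^ 2) / 2 := by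
    subst hx
    linear_combination (-1 / 2) * ha
  rw [hor, ← hx, ← hr]

theorem circ_of_reflect {a x r : ℝ} (ha : pt a ∈ circ x r) : circ x r = hor a (2 * x - a) := by
  rw [mem_circ] at ha
  simp only [pt_re, pt_im] at ha
  have hx : x = (a + (2 * x - a)) / 2 := by ring
  have hr : r = (1 + ((a - (2 * x - a)) / 2) ^ 2) / 2 := by
    linear_combination (-1 / 2) * ha
  rw [hor, ← hx, ← hr]

theorem quad_q₁ {a x r : ℝ} (ha : pt a ∈ circ x r) (hq : q₁ ∈ circ x r) :
    (2 * x - a) ^ 2 + 3 * a * (2 * x - a) + a ^ 2 = 4 / 5 := by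
  rw [mem_circ] at ha hq
  simp only [pt_re, pt_im, q₁_re, q₁_im] at ha hq
  linear_combination 5 * hq - ha

theorem quad_q₂ {a x r : ℝ} (ha : pt a ∈ circ x r) (hq : q₂ ∈ circ x r) :
    (2 * x - a) ^ 2 - 7 * a * (2 * x - a) + a ^ 2 = 36 / 5 := by
  rw [mem_circ] at ha hq
  simp only [pt_re, pt_im, q₂_re, q₂_im] at ha hq
  linear_combination 9 * ha - 5 * hq

theorem reflect_q₁ {k : ℕ} {b : ℝ} (h : b ^ 2 + 3 * X k * b + X k ^ 2 = 4 / 5) :
    b = X (k + 1) ∨ b = X (k - 1) := by
  rcases k with _ | k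
  · have : (b - X 1) * (b - X 0) = 0 := by
      simp only [X] at h ⊢
      linear_combination h
    rcases mul_eq_zero.1 this with h | h
    · left; linarith
    · right; simpa using (sub_eq_zero.1 h)
  · have h1 := X_inv k
    have : (b - X (k + 2)) * (b - X k) = 0 := by
      rw [X_succ_succ]
      linear_combination h - h1
    rcases mul_eq_zero.1 this with h | h
    · left; exact sub_eq_zero.1 h
    · right; simpa using (sub_eq_zero.1 h)

theorem reflect_q₂ {k : ℕ} {b : ℝ} (h : b ^ 2 - 7 * X k * b + X k ^ 2 = 36 / 5) :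
    b = X (k + 2) ∨ (2 ≤ k ∧ b = X (k - 2)) ∨ (k = 0 ∧ b = X 1) ∨ (k = 1 ∧ b = X 0) := by
  rcases k with _ | _ | k
  · have : (b - X 2) * (b - X 1) = 0 := by
      simp only [X] at h ⊢
      linear_combination h
    rcases mul_eq_zero.1 this with h | h
    · left; exact sub_eq_zero.1 h
    · right; right; left; exact ⟨rfl, sub_eq_zero.1 h⟩
  · have : (b - X 3) * (b - X 0) = 0 := by
      simp only [X] at h ⊢
      linear_combination h
    rcases mul_eq_zero.1 this with h | h
    · left; exact sub_eq_zero.1 h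
    · right; right; right; exact ⟨rfl, sub_eq_zero.1 h⟩
  · have h1 := X_inv k
    have : (b - X (k + 4)) * (b - X k) = 0 := by
      rw [show k + 1 + 1 = k + 2 from rfl] at h
      rw [X_succ_succ (k + 2), show k + 2 + 1 = (k + 1) + 2 from rfl, X_succ_succ (k + 1),
        show k + 1 + 1 = k + 2 from rfl, X_succ_succ k]
      rw [X_succ_succ k] at h
      linear_combination h - 9 * h1
    rcases mul_eq_zero.1 this with h | h
    · left; exact sub_eq_zero.1 h
    · right; left; exact ⟨by omega, by simpa using (sub_eq_zero.1 h)⟩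

theorem hline_case {k : ℕ} {c : ℝ} {p q : ℍ} (hp : p ∈ P k) (hq : q ∈ P k) (hpq : p ≠ q)
    (hpc : p.im = c) (hqc : q.im = c) : c = 1 := by
  classical
  simp only [P, mem_insert, mem_image, mem_range] at hp hq
  rcases hp with rfl | rfl | ⟨i, hi, rfl⟩ <;> rcases hq with rfl | rfl | ⟨j, hj, rfl⟩
  · exact absurd rfl hpq
  · norm_num at hpc hqc
    linarith
  · exact hqc.symm
  · norm_num at hpc hqc
    linarith
  · exact absurd rfl hpq
  · exact hqc.symm
  · exact hpc.symm
  · exact hpc.symm
  · exact hpc.symm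

open Classical in
/-- A finite set containing all horocycles determined by `P k`. -/
noncomputable def S (k : ℕ) : Finset (Set ℍ) :=
  {hline 1} ∪ ((range k).sigma fun j => range j).image (fun s => hor (X s.2) (X s.1)) ∪
    {hor (X 0) (X 0), hor (X (k - 1)) (X k), hor (X (k - 2)) (X k), hor (X (k - 1)) (X (k + 1)),
      circ (3 / 5) 1}

theorem card_S (k : ℕ) : #(S k) ≤ k.choose 2 + 6 := by
  classical
  unfold S
  refine (card_union_le _ _).trans ?_
  have h1 : #({hline 1} ∪ ((range k).sigma fun j => range j).image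
      (fun s => hor (X s.2) (X s.1))) ≤ 1 + k.choose 2 := by
    refine (card_union_le _ _).trans ?_
    rw [card_singleton]
    have h2 : #((range k).sigma fun j => range j) = k.choose 2 := by
      rw [card_sigma]
      simp only [card_range]
      rw [Finset.sum_range_id, Nat.choose_two_right]
    have h3 := card_image_le (s := (range k).sigma fun j => range j)
      (f := fun s => hor (X s.2) (X s.1))
    omega
  have h4 : #({hor (X 0) (X 0), hor (X (k - 1)) (X k), hor (X (k - 2)) (X k),
      hor (X (k - 1)) (X (k + 1)), circ (3 / 5) 1} : Finset (Set ℍ)) ≤ 5 := card_le_five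
  omega

theorem hor_mem_S {k i j : ℕ} (hij : i < j) (hj : j < k) : hor (X i) (X j) ∈ S k := by
  classical
  unfold S
  rw [mem_union, mem_union]
  left; right
  rw [mem_image]
  exact ⟨⟨j, i⟩, by simp [hij, hj], rfl⟩

theorem special₁ (k : ℕ) : hor (X 0) (X 0) ∈ S k := by
  classical
  simp [S]

theorem special₂ (k : ℕ) : hor (X (k - 1)) (X k) ∈ S k := by
  classical
  simp [S]

theorem special₃ (k : ℕ) : hor (X (k - 2)) (X k) ∈ S k := by
  classical
  simp [S]

theorem special₄ (k : ℕ) : hor (X (k - 1)) (X (k + 1)) ∈ S k := by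
  classical
  simp [S]

theorem special₅ (k : ℕ) : circ (3 / 5) 1 ∈ S k := by
  classical
  simp [S]

theorem pt_q₁ {k i : ℕ} {x r : ℝ} (hi : i < k) (ha : pt (X i) ∈ circ x r)
    (hq : q₁ ∈ circ x r) : circ x r ∈ S k := by
  rw [circ_of_reflect ha]
  rcases reflect_q₁ (quad_q₁ ha hq) with h | h
  · rw [h]
    rcases Nat.lt_or_ge (i + 1) k with h1 | h1
    · exact hor_mem_S (by omega) h1
    · obtain rfl : k = i + 1 := by omega
      exact special₂ (i + 1)
  · rw [h, hor_comm]
    rcases i with _ | i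
    · exact special₁ k
    · exact hor_mem_S (by omega) hi

theorem pt_q₂ {k i : ℕ} {x r : ℝ} (hk : 2 ≤ k) (hi : i < k) (ha : pt (X i) ∈ circ x r)
    (hq : q₂ ∈ circ x r) : circ x r ∈ S k := by
  rw [circ_of_reflect ha]
  rcases reflect_q₂ (quad_q₂ ha hq) with h | ⟨h0, h⟩ | ⟨rfl, h⟩ | ⟨rfl, h⟩
  · rw [h]
    rcases Nat.lt_or_ge (i + 2) k with h1 | h1
    · exact hor_mem_S (by omega) h1
    · rcases Nat.lt_or_ge (i + 1) k with h2 | h2
      · obtain rfl : k = i + 2 := by omega
        exact special₃ (i + 2)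
      · obtain rfl : k = i + 1 := by omega
        exact special₄ (i + 1)
  · rw [h, hor_comm]
    exact hor_mem_S (by omega) hi
  · rw [h]
    exact hor_mem_S (by omega) (by omega)
  · rw [h, hor_comm]
    exact hor_mem_S (by omega) (by omega)

theorem q₁_q₂ {k : ℕ} {x r : ℝ} (hk : 2 ≤ k) (h1 : q₁ ∈ circ x r) (h2 : q₂ ∈ circ x r) :
    circ x r ∈ S k := by
  rw [mem_circ] at h1 h2
  simp only [q₁_re, q₁_im, q₂_re, q₂_im] at h1 h2
  have hr : r = 1 := by linear_combination (5 / 16) * h1 - (5 / 16) * h2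
  subst hr
  have hx : (x - 3 / 5) * (x + 3 / 5) = 0 := by linear_combination h1
  rcases mul_eq_zero.1 hx with h | h
  · have : x = 3 / 5 := by linarith
    rw [this]; exact special₅ k
  · have : x = -3 / 5 := by linarith
    have h0 : circ x 1 = hor (X 0) (X 1) := by
      rw [this, hor]
      norm_num [X]
    rw [h0]
    exact hor_mem_S (by omega) (by omega)

theorem determined_subset {k : ℕ} (hk : 2 ≤ k) : determined (P k) ⊆ ↑(S k) := by
  classical
  rintro H ⟨hH, p, hp, q, hq, hpq, hpH, hqH⟩
  rcases hH with ⟨c, hc, rfl⟩ | ⟨x, r, hr, rfl⟩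
  · have hc1 : c = 1 := hline_case hp hq hpq hpH hqH
    subst hc1
    simp [S]
  · simp only [P, mem_insert, mem_image, mem_range] at hp hq
    rcases hp with rfl | rfl | ⟨i, hi, rfl⟩ <;> rcases hq with rfl | rfl | ⟨j, hj, rfl⟩
    · exact absurd rfl hpq
    · exact q₁_q₂ hk hpH hqH
    · exact pt_q₁ hj hqH hpH
    · exact q₁_q₂ hk hqH hpH
    · exact absurd rfl hpq
    · exact pt_q₂ hk hj hqH hpH
    · exact pt_q₁ hi hpH hqH
    · exact pt_q₂ hk hi hpH hqH
    · have hij : X i ≠ X j := fun h => hpq (by rw [h])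
      have hij' : i ≠ j := fun h => hij (by rw [h])
      rw [circ_pt_pt hij hpH hqH]
      rcases lt_or_gt_of_ne hij' with h | h
      · exact hor_mem_S h hj
      · rw [hor_comm]; exact hor_mem_S h hi

theorem h_P_le {k : ℕ} (hk : 2 ≤ k) : h (P k) ≤ k.choose 2 + 6 := by
  unfold h
  refine (Set.ncard_le_ncard (determined_subset hk) (S k).finite_toSet).trans ?_
  rw [Set.ncard_coe_finset]
  exact card_S k

theorem finite_quadratic {α β γ : ℝ} (h : α ≠ 0 ∨ β ≠ 0) :
    {x : ℝ | α * x ^ 2 + β * x + γ = 0}.Finite := by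
  let f : Polynomial ℝ := Polynomial.C α * Polynomial.X ^ 2 + Polynomial.C β * Polynomial.X +
    Polynomial.C γ
  have hf : f ≠ 0 := by
    intro h0
    have h1 : f.coeff 2 = α := by simp [f]
    have h2 : f.coeff 1 = β := by simp [f, Polynomial.coeff_C]
    rw [h0, Polynomial.coeff_zero] at h1 h2
    rcases h with h | h
    · exact h h1.symm
    · exact h h2.symm
  refine (f.roots.toFinset.finite_toSet).subset ?_
  intro x hx
  rw [Set.mem_ofPred_eq] at hx
  simp only [Finset.mem_coe, Multiset.mem_toFinset]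
  rw [Polynomial.mem_roots hf, Polynomial.IsRoot.def]
  simpa [f] using hx

theorem finite_through {p q : ℍ} (hpq : p ≠ q) :
    {H : Set ℍ | IsHorocycle H ∧ p ∈ H ∧ q ∈ H}.Finite := by
  have h1 : {x : ℝ | (q.im - p.im) * x ^ 2 + (-2 * (q.im * p.re - p.im * q.re)) * x +
      (q.im * (p.re ^ 2 + p.im ^ 2) - p.im * (q.re ^ 2 + q.im ^ 2)) = 0}.Finite := by
    apply finite_quadratic
    by_cases him : q.im - p.im = 0
    · right
      have him' : q.im = p.im := sub_eq_zero.1 him
      intro h0
      apply hpq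
      apply UpperHalfPlane.ext
      have h2 : p.im * (p.re - q.re) = 0 := by rw [him'] at h0; linarith
      have h3 : p.re - q.re = 0 := (mul_eq_zero.1 h2).resolve_left p.im_pos.ne'
      apply Complex.ext
      · exact sub_eq_zero.1 h3
      · exact him'.symm
    · left; exact him
  have h2 := (h1.image fun x => circ x (((p.re - x) ^ 2 + p.im ^ 2) / (2 * p.im))).union
    (Set.finite_singleton (hline p.im))
  refine h2.subset ?_
  rintro H ⟨hH, hp, hq⟩
  rcases hH with ⟨c, hc, rfl⟩ | ⟨x, r, hr, rfl⟩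
  · right
    have : p.im = c := hp
    rw [this]; rfl
  · left
    rw [mem_circ] at hp hq
    refine ⟨x, ?_, ?_⟩
    · rw [Set.mem_ofPred_eq]
      linear_combination q.im * hp - p.im * hq
    · have hp0 := p.im_pos.ne'
      have : r = ((p.re - x) ^ 2 + p.im ^ 2) / (2 * p.im) := by
        rw [hp]; field_simp
      simp only
      rw [← this]

theorem determined_finite (P : Finset ℍ) : (determined P).Finite := by
  have h1 : (⋃ p ∈ P, ⋃ q ∈ P, {H : Set ℍ | p ≠ q ∧ IsHorocycle H ∧ p ∈ H ∧ q ∈ H}).Finite := by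
    refine Set.Finite.biUnion P.finite_toSet fun p _ => ?_
    refine Set.Finite.biUnion P.finite_toSet fun q _ => ?_
    by_cases hpq : p = q
    · simp [hpq]
    · exact (finite_through hpq).subset fun H hH => hH.2
  refine h1.subset ?_
  rintro H ⟨hH, p, hp, q, hq, hpq, hpH, hqH⟩
  simp only [Set.mem_iUnion]
  exact ⟨p, hp, q, hq, hpq, hH, hpH, hqH⟩

theorem result : (∀ P : Finset ℍ, (determined P).Finite) ∧
    ∀ n : ℕ, 4 ≤ n → m n ≤ (n - 2).choose 2 + 6 := by
  refine ⟨determined_finite, fun n hn => ?_⟩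
  have h1 : m n ≤ h (P (n - 2)) := Nat.sInf_le ⟨P (n - 2), by rw [card_P]; omega, rfl⟩
  exact h1.trans (h_P_le (by omega))

end Pool.Agent.Results.MP_d7f0d3_co.GoldenChain
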